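import Pool.Agent.helper48.SG.SpecH

/-!
# Project sg: (MP_2b8aea_gt): H15, oscillation in half planes
-/

set_option autoImplicit false

open MeasureTheory Set Metric Filter Topology
open scoped ENNReal NNReal ComplexConjugate

namespace Pool.Agent.SG

theorem H15_lim {X P : ℝ} (hP : 0 ≤ P) (h : ∀ δ : ℝ, 0 < δ → X ≤ (1 + δ) * P) : X ≤ P := by
  by_contra hc
  push Not at hc
  have hδ : 0 < (X - P) / (2 * (P + 1)) := by
    have : 0 < X - P := by linarith
    positivity
  have h1 := h _ hδ
  have h2 : (X - P) / (2 * (P + 1)) * P ≤ (X - P) / 2 := by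
    rw [div_mul_eq_mul_div, div_le_div_iff₀ (by positivity) (by norm_num)]
    nlinarith
  linarith

theorem H15_num {K z α : ℝ} (hK : 0 < K) (hz : 0 < z) (hz1 : z ≤ 1) (hα : α ≤ 1) :
    (1 + K * z ^ α) * (1 + 60 * z) ≤ 1 + (K + 60 + 60 * K) * z ^ α := by
  have h1 : z ≤ z ^ α := by
    have := Real.rpow_le_rpow_of_exponent_ge hz hz1 hα
    rwa [Real.rpow_one] at this
  have h2 : 0 < z ^ α := Real.rpow_pos_of_pos hz α
  have h3 : z ^ α * z ≤ z ^ α * 1 := mul_le_mul_of_nonneg_left hz1 h2.le
  nlinarith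

theorem H15 (hH01 : H01_stmt) (hH02 : H02_stmt) (hH03 : H03_stmt) (hH11 : H11_stmt)
    (hH14 : H14_stmt) (hB03 : B03_stmt) : H15_stmt := by
  intro Γ _ A W ν C hC
  obtain ⟨K, α, hK, hα, hα1, h11⟩ := hH11 Γ A W ν C hC
  obtain ⟨_, _, _, _, hnl, hln, hpn, hpl⟩ := hH01 Γ A W ν C hC
  refine ⟨K + 60 + 60 * K, α, by positivity, hα, hα1, ?_⟩
  intro u c s E E' x hu hc hc2 hs hsc hE hE' hEf hEf' hx
  haveI := hpn
  haveI := hpl
  have hz : 0 < s / c := by positivity
  have hz1 : s / c ≤ 1 := by
    rw [div_le_one hc]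
    linarith
  have hα0 : 0 < (s / c) ^ α := Real.rpow_pos_of_pos hz α
  have hnum := H15_num hK hz hz1 hα1
  have hR0 : 0 ≤ (nux A ν x).real E' * (lax A x).real E := by positivity
  -- a null set is null for all measures
  have hnull : ∀ F : Set ℂ, MeasurableSet F → F ⊆ far u c → lam F = 0 → lax A x F = 0 := by
    intro F hF hFf h0
    obtain ⟨_, _, h3, _, h5, _⟩ := hH02 Γ A u c s x F hu hc hsc hx hF hFf
    rw [h0, mul_zero] at h5
    rw [le_zero_iff.1 h5, mul_zero] at h3
    exact le_zero_iff.1 h3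
  by_cases hl : lam E = 0
  · have h1 := hnull E hE hEf hl
    have h2 := hnl x E hE
    rw [h1, mul_zero] at h2
    have h3 : (nux A ν x).real E = 0 := by
      rw [measureReal_def, le_zero_iff.1 h2, ENNReal.toReal_zero]
    rw [h3, zero_mul]
    positivity
  by_cases hl' : lam E' = 0
  · have h1 := hnull E' hE' hEf' hl'
    have h3 : (lax A x).real E' = 0 := by
      rw [measureReal_def, h1, ENNReal.toReal_zero]
    rw [h3, mul_zero]
    positivity
  have hpos : ∀ (y : Γ) (F : Set ℂ), A.Hu u y ≤ s → MeasurableSet F → F ⊆ far u c → lam F ≠ 0 →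
      0 < (lax A y).real F ∧ 0 < (nux A ν y).real F := by
    intro y F hy hF hFf h0
    obtain ⟨_, _, _, h4, _, h6⟩ := hH02 Γ A u c s y F hu hc hsc hy hF hFf
    have hk : 0 < A.kk y := ((hB03 Γ A).1 y).1
    have h7 : sg u F ≠ 0 := by
      intro h
      rw [h] at h6
      rcases mul_eq_zero.1 (le_zero_iff.1 h6) with h8 | h8
      · rw [ENNReal.ofReal_eq_zero] at h8
        norm_num at h8
      · exact h0 h8
    have h9 : lax A y F ≠ 0 := by
      intro h
      rw [h] at h4
      rcases mul_eq_zero.1 (le_zero_iff.1 h4) with h8 | h8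
      · rw [ENNReal.ofReal_eq_zero] at h8
        linarith
      · exact h7 h8
    have h10 : nux A ν y F ≠ 0 := by
      intro h
      have h11 := hln y F hF
      rw [h, mul_zero] at h11
      exact h9 (le_zero_iff.1 h11)
    constructor
    · rw [measureReal_def]
      exact ENNReal.toReal_pos h9 (measure_ne_top _ _)
    · rw [measureReal_def]
      exact ENNReal.toReal_pos h10 (measure_ne_top _ _)
  have hmain : ∀ δ : ℝ, 0 < δ → (nux A ν x).real E * (lax A x).real E' ≤
      (1 + δ) * (((1 + K * (s / c) ^ α) * (1 + 60 * (s / c))) *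
        ((nux A ν x).real E' * (lax A x).real E)) := by
    intro δ hδ
    obtain ⟨y, hy, h14⟩ := hH14 Γ A W ν C hC u c s δ E E' hu hc hs hsc hδ hE hE' hEf hEf' hl hl'
    have i1 := h11 u c s E E' x y hu hc hc2 hs hsc hE hE' hEf hEf' hx hy
    have i2 : (lax A y).real E * (lax A x).real E' ≤
        (1 + 60 * (s / c)) * ((lax A x).real E * (lax A y).real E') := by
      have h := hH03 Γ A u c s y x E E' hu hc hsc hy hx hE hE' hEf hEf'
      have h2 := ENNReal.toReal_mono (ENNReal.mul_ne_top ENNReal.ofReal_ne_top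
        (ENNReal.mul_ne_top (measure_ne_top _ _) (measure_ne_top _ _))) h
      rw [ENNReal.toReal_mul, ENNReal.toReal_mul, ENNReal.toReal_mul,
        ENNReal.toReal_ofReal (by positivity)] at h2
      have h3 : 1 + 60 * s / c = 1 + 60 * (s / c) := by ring
      rw [h3] at h2
      exact h2
    obtain ⟨p1, p2⟩ := hpos y E hy hE hEf hl
    obtain ⟨p3, p4⟩ := hpos y E' hy hE' hEf' hl'
    have n1 : 0 ≤ (nux A ν x).real E := measureReal_nonneg
    have n2 : 0 ≤ (nux A ν x).real E' := measureReal_nonneg
    have n3 : 0 ≤ (lax A x).real E := measureReal_nonneg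
    have n4 : 0 ≤ (lax A x).real E' := measureReal_nonneg
    set a := (nux A ν x).real E
    set a' := (nux A ν x).real E'
    set b := (lax A x).real E
    set b' := (lax A x).real E'
    set e := (nux A ν y).real E
    set e' := (nux A ν y).real E'
    set g := (lax A y).real E
    set g' := (lax A y).real E'
    have hP : 0 < e' * g * (e * g') := by positivity
    have hprod : (a * e') * (g * b') * (e * g') ≤
        ((1 + K * (s / c) ^ α) * (e * a')) * ((1 + 60 * (s / c)) * (b * g')) *
          ((1 + δ) * (e' * g)) := by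
      apply mul_le_mul _ h14 (by positivity) (by positivity)
      exact mul_le_mul i1 i2 (by positivity) (by positivity)
    have hfin : (a * b') * (e' * g * (e * g')) ≤
        ((1 + δ) * (((1 + K * (s / c) ^ α) * (1 + 60 * (s / c))) * (a' * b))) *
          (e' * g * (e * g')) := by
      calc (a * b') * (e' * g * (e * g')) = (a * e') * (g * b') * (e * g') := by ring
        _ ≤ _ := hprod
        _ = _ := by ring
    exact le_of_mul_le_mul_right hfin hP
  have h := H15_lim (by positivity) hmain
  exact h.trans (mul_le_mul_of_nonneg_right hnum hR0)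

end Pool.Agent.SG
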