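import Pool.Agent.helper56.SG.SpecG

/-!
# Project sg: (MP_2b8aea_gt): POS, the sign of a function whose weighted integral vanishes
-/

set_option autoImplicit false

open MeasureTheory Set Metric Filter Topology
open scoped ENNReal NNReal ComplexConjugate
open Pool.Agent.SG

noncomputable section

namespace Pool.Agent.SGG

theorem POS_aux (hHYC : HYC_stmt) (hACT : ACT_stmt) (Γ : Type) [Group Γ] (A : DiscRep Γ)
    (χ : ℂ → ℝ) (r : ℝ) (hP : Par A χ r) (v : ℂ → ℝ) (hv : CB v)
    (hI : ∫ x, χ x * v x ∂hyp = 0) (hpos : ∀ x ∈ ball (0 : ℂ) 1, 0 < v x) : False := by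
  obtain ⟨_, _, _, _, _, hint, hzero⟩ := hHYC
  have hcb : CB (fun x => χ x * v x) := hP.cb.mul hv
  have hin : Integrable (fun x => χ x * v x) hyp :=
    hint _ hcb r hP.r1 (fun z hz hr => by rw [hP.supp z hz hr, zero_mul])
  have h0 := hzero _ hcb (fun z hz => mul_nonneg (hP.nn z) (hpos z hz).le) hin hI
  have hχ : ∀ z ∈ ball (0 : ℂ) 1, χ z = 0 := by
    intro z hz
    rcases mul_eq_zero.1 (h0 z hz) with h | h
    · exact h
    · exact absurd h (hpos z hz).ne'
  have h00 : (0 : ℂ) ∈ ball (0 : ℂ) 1 := mem_ball_self one_pos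
  have h1 := hP.one 0 h00 ∅ (fun γ hγ => absurd (hχ _ ((hACT Γ A 0 h00).1 γ).2.1) hγ)
  rw [Finset.sum_empty] at h1
  exact zero_ne_one h1

theorem POS (hHYC : HYC_stmt) (hACT : ACT_stmt) : POS_stmt := by
  intro Γ _ A χ r hP v hv hI
  constructor
  · by_contra hc
    push Not at hc
    exact POS_aux hHYC hACT Γ A χ r hP v hv hI hc
  · by_contra hc
    push Not at hc
    refine POS_aux hHYC hACT Γ A χ r hP (fun x => - v x) hv.neg ?_
      (fun x hx => neg_pos.2 (hc x hx))
    have h : (fun x => χ x * - v x) = fun x => - (χ x * v x) := by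
      funext x
      rw [mul_neg]
    rw [h, integral_neg, hI, neg_zero]

end Pool.Agent.SGG
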