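import Pool.Agent.helper3.SG.SpecS

/-!
# Project sg: (MP_2b8aea_gt): S29, image of the complement of a ball around the repelling point
-/

set_option autoImplicit false

open MeasureTheory Set Metric Filter Topology
open scoped ENNReal NNReal ComplexConjugate commutatorElement

namespace Pool.Agent.SG

theorem S29_q {a b : ℂ} (hab : ‖a‖ ^ 2 - ‖b‖ ^ 2 = 1) {ξ : ℂ} (hξ : ‖ξ‖ = 1) :
    conj b * ξ + conj a ≠ 0 := by
  intro h
  have h1 : ‖conj b * ξ‖ = ‖conj a‖ := by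
    rw [eq_neg_of_add_eq_zero_left h, norm_neg]
  rw [norm_mul, RCLike.norm_conj, RCLike.norm_conj, hξ, mul_one] at h1
  rw [h1, sub_self] at hab
  exact zero_ne_one hab

theorem S29_sub {a b : ℂ} (hab : ‖a‖ ^ 2 - ‖b‖ ^ 2 = 1) {ξ η : ℂ} (hξ : ‖ξ‖ = 1) (hη : ‖η‖ = 1) :
    mob a b ξ - mob a b η = (ξ - η) / ((conj b * ξ + conj a) * (conj b * η + conj a)) := by
  have h1 := S29_q hab hξ
  have h2 := S29_q hab hη
  have h3 : a * conj a - b * conj b = 1 := by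
    rw [Complex.mul_conj', Complex.mul_conj']
    exact_mod_cast hab
  unfold mob
  rw [div_sub_div _ _ h1 h2]
  congr 1
  linear_combination (ξ - η) * h3

theorem S29_rho {a b : ℂ} (hab : ‖a‖ ^ 2 - ‖b‖ ^ 2 = 1) {r : ℝ} (hr0 : 0 < r) (hr : r ≤ 1) :
    ∃ ρ : ℂ, (ρ ∈ circ ∨ ρ = 0) ∧ ∀ ξ ∈ circ, r ≤ ‖ξ - ρ‖ →
      ‖a‖ * r / 2 ≤ ‖conj b * ξ + conj a‖ := by
  have ha0 : 0 < ‖a‖ := by
    rcases (norm_nonneg a).eq_or_lt with h | h
    · rw [← h] at hab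
      nlinarith [sq_nonneg ‖b‖]
    · exact h
  have hane : a ≠ 0 := norm_pos_iff.1 ha0
  have hq : ∀ ξ ∈ circ, ‖conj b * ξ + conj a‖ = ‖a * ξ + b‖ := by
    intro ξ hξ
    have h1 : ‖ξ‖ = 1 := mem_sphere_zero_iff_norm.1 hξ
    have h2 : ξ * conj ξ = 1 := by
      rw [Complex.mul_conj', h1]; norm_num
    have h3 : a * ξ + b = ξ * conj (conj b * ξ + conj a) := by
      simp only [map_add, map_mul, Complex.conj_conj]
      linear_combination (-b) * h2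
    rw [h3, norm_mul, h1, one_mul, RCLike.norm_conj]
  by_cases hb : b = 0
  · refine ⟨0, Or.inr rfl, ?_⟩
    intro ξ hξ _
    have h1 : ‖ξ‖ = 1 := mem_sphere_zero_iff_norm.1 hξ
    rw [hq ξ hξ, hb, add_zero, norm_mul, h1, mul_one]
    nlinarith
  · have hb0 : 0 < ‖b‖ := norm_pos_iff.2 hb
    have hba : ‖b / a‖ = ‖b‖ / ‖a‖ := norm_div b a
    have hτ0 : 0 < ‖b / a‖ := by rw [hba]; positivity
    have hτ1 : ‖b / a‖ ≤ 1 := by
      rw [hba, div_le_one ha0]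
      nlinarith
    set ρ : ℂ := -(b / a) / (‖b / a‖ : ℂ) with hρ
    have hτc : ((‖b / a‖ : ℝ) : ℂ) ≠ 0 := by exact_mod_cast hτ0.ne'
    have hρ1 : ‖ρ‖ = 1 := by
      rw [hρ, norm_div, norm_neg, Complex.norm_real, norm_norm, div_self hτ0.ne']
    have hτρ : ((‖b / a‖ : ℝ) : ℂ) * ρ = -(b / a) := by
      rw [hρ]; field_simp
    refine ⟨ρ, Or.inl (mem_sphere_zero_iff_norm.2 hρ1), ?_⟩
    intro ξ hξ hrξ
    have h1 : ‖ξ‖ = 1 := mem_sphere_zero_iff_norm.1 hξ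
    rw [hq ξ hξ]
    have h2 : a * ξ + b = a * (ξ - (‖b / a‖ : ℂ) * ρ) := by
      rw [hτρ]; field_simp; ring
    rw [h2, norm_mul]
    have h3 : ‖ξ - ρ‖ ≤ ‖ξ - (‖b / a‖ : ℂ) * ρ‖ + ‖(‖b / a‖ : ℂ) * ρ - ρ‖ :=
      norm_sub_le_norm_sub_add_norm_sub _ _ _
    have h4 : ‖(‖b / a‖ : ℂ) * ρ - ρ‖ = 1 - ‖b / a‖ := by
      have h5 : (‖b / a‖ : ℂ) * ρ - ρ = -(((1 - ‖b / a‖ : ℝ) : ℂ) * ρ) := by
        push_cast; ring
      rw [h5, norm_neg, norm_mul, hρ1, mul_one, Complex.norm_real, Real.norm_eq_abs,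
        abs_of_nonneg (by linarith)]
    have h6 : 1 - ‖b / a‖ ≤ ‖ξ - (‖b / a‖ : ℂ) * ρ‖ := by
      have h7 := norm_sub_norm_le ξ ((‖b / a‖ : ℂ) * ρ)
      rw [norm_mul, hρ1, mul_one, Complex.norm_real, norm_norm, h1] at h7
      exact h7
    have h8 : r / 2 ≤ ‖ξ - (‖b / a‖ : ℂ) * ρ‖ := by linarith
    calc ‖a‖ * r / 2 = ‖a‖ * (r / 2) := by ring
      _ ≤ _ := mul_le_mul_of_nonneg_left h8 ha0.le

theorem S29 : S29_stmt := by
  intro Γ _ A x r hr0 hr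
  have hab := A.norm_eq x
  have ha0 : 0 < ‖A.a x‖ := by
    rcases (norm_nonneg (A.a x)).eq_or_lt with h | h
    · rw [← h] at hab
      nlinarith [sq_nonneg ‖A.b x‖]
    · exact h
  obtain ⟨ρ, hρ, hq⟩ := S29_rho hab hr0 hr
  refine ⟨ρ, hρ, _, rfl, ?_, ?_, ?_⟩
  · have hc : IsCompact (circ \ ball ρ r) := (isCompact_sphere (0 : ℂ) 1).diff isOpen_ball
    apply hc.image_of_continuousOn
    have h1 : ∀ z ∈ circ \ ball ρ r, conj (A.b x) * z + conj (A.a x) ≠ 0 := fun z hz =>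
      S29_q hab (mem_sphere_zero_iff_norm.1 hz.1)
    unfold DiscRep.act mob
    exact ContinuousOn.div (by fun_prop) (by fun_prop) h1
  · rintro _ ⟨ξ, ⟨hξ, hξr⟩, rfl⟩ _ ⟨η, ⟨hη, hηr⟩, rfl⟩
    have h1 : ‖ξ‖ = 1 := mem_sphere_zero_iff_norm.1 hξ
    have h2 : ‖η‖ = 1 := mem_sphere_zero_iff_norm.1 hη
    have h3 : r ≤ ‖ξ - ρ‖ := by
      by_contra hc
      push Not at hc
      exact hξr (mem_ball_iff_norm.2 hc)
    have h4 : r ≤ ‖η - ρ‖ := by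
      by_contra hc
      push Not at hc
      exact hηr (mem_ball_iff_norm.2 hc)
    have h5 := hq ξ hξ h3
    have h6 := hq η hη h4
    unfold DiscRep.act
    rw [S29_sub hab h1 h2, norm_div, norm_mul]
    have h7 : ‖ξ - η‖ ≤ 2 := by
      have := norm_sub_le ξ η
      linarith
    have hpos : 0 < ‖A.a x‖ * r / 2 := by positivity
    have h8 : (‖A.a x‖ * r / 2) * (‖A.a x‖ * r / 2) ≤
        ‖conj (A.b x) * ξ + conj (A.a x)‖ * ‖conj (A.b x) * η + conj (A.a x)‖ :=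
      mul_le_mul h5 h6 hpos.le (norm_nonneg _)
    calc ‖ξ - η‖ / (‖conj (A.b x) * ξ + conj (A.a x)‖ * ‖conj (A.b x) * η + conj (A.a x)‖)
        ≤ 2 / ((‖A.a x‖ * r / 2) * (‖A.a x‖ * r / 2)) :=
          div_le_div₀ (by norm_num) h7 (by positivity) h8
      _ = 8 / (r ^ 2 * ‖A.a x‖ ^ 2) := by field_simp; norm_num
  · intro ξ hξ
    have h1 : ‖ξ‖ = 1 := mem_sphere_zero_iff_norm.1 hξ
    constructor
    · rintro ⟨η, ⟨hη, hηr⟩, he⟩
      have h2 : ‖η‖ = 1 := mem_sphere_zero_iff_norm.1 hη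
      have h3 := S29_sub hab h2 h1
      unfold DiscRep.act at he
      rw [he, sub_self] at h3
      have h4 := (div_eq_zero_iff.1 h3.symm).resolve_right
        (mul_ne_zero (S29_q hab h2) (S29_q hab h1))
      rw [← sub_eq_zero.1 h4]
      exact hηr
    · intro h
      exact ⟨ξ, ⟨hξ, h⟩, rfl⟩

end Pool.Agent.SG
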